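import Pool.Agent.H84.TI.Stm

set_option autoImplicit false

open Finset

namespace Pool.Agent.H77.TI

open Pool.Agent.H84.TI

theorem ext (hEQU : S_EQU) (hPAI : S_PAI) (hTWO : S_TWO) (hSPA : S_SPA) (hSDO : S_SDO) : S_EXT := by
  intro ε hε
  obtain ⟨η, hη⟩ : ∃ η : ℝ, η = min (ε / 3) 1 := ⟨_, rfl⟩
  have hη0 : 0 < η := by rw [hη]; exact lt_min (by positivity) one_pos
  have hη1 : η ≤ 1 := by rw [hη]; exact min_le_right _ _
  have hη2 : 3 * η ≤ ε := by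
    have : η ≤ ε / 3 := by rw [hη]; exact min_le_left _ _
    linarith
  obtain ⟨P, hP⟩ := hEQU hη0
  refine ⟨max P (⌈1 / ε⌉₊ + 1), fun p hpP hp3 B hB hBc => ?_⟩
  have hp1 : P ≤ p := le_trans (le_max_left _ _) hpP
  have hp2 : ⌈1 / ε⌉₊ + 1 ≤ p := le_trans (le_max_right _ _) hpP
  have hpε : 1 < ε * p := by
    have h1 : 1 / ε ≤ ⌈1 / ε⌉₊ := Nat.le_ceil _
    have h2 : ((⌈1 / ε⌉₊ + 1 : ℕ) : ℝ) ≤ p := by exact_mod_cast hp2
    push_cast at h2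
    have h3 : 1 / ε < p := by linarith
    rw [div_lt_iff₀ hε] at h3
    linarith
  obtain ⟨M, hM⟩ : ∃ M : ℕ, M = p * (p - 1) := ⟨_, rfl⟩
  obtain ⟨q, rfl⟩ : ∃ q : ℕ, p = q + 1 := ⟨p - 1, by omega⟩
  have hMq : (q + 1) * (q + 1 - 1) = (q + 1) * q := by simp
  have hMpos : 0 < (q + 1) * (q + 1 - 1) := by
    rw [hMq]; exact Nat.mul_pos (by omega) (by omega)
  haveI : NeZero ((q + 1) * (q + 1 - 1)) := ⟨hMpos.ne'⟩
  have heven : Even ((q + 1) * (q + 1 - 1)) := by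
    rw [hMq, mul_comm]; exact Nat.even_mul_succ_self q
  obtain ⟨h, hh⟩ := heven
  have hx0 : (q + 1) * (q + 1 - 1) / 2 = h := by omega
  have hw : (q + 1) * (q + 1 - 1) - h = h := by omega
  have hcard : Fintype.card (ZMod ((q + 1) * (q + 1 - 1))) = (q + 1) * (q + 1 - 1) := ZMod.card _
  by_contra hcon
  push Not at hcon
  have hBc' : B.card = q := by simpa using hBc
  -- the upper bound
  have hup : 2 * ∑ t : ZMod ((q + 1) * (q + 1 - 1)), (Bad B h t).card ≤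
      ∑ b ∈ B, N2 B (b - (h : ZMod ((q + 1) * (q + 1 - 1)))) h + B.card ^ 2 := by
    have h1 := hSPA B h (by omega)
    have h2 := hSDO B h
    rw [hw] at h1
    calc 2 * ∑ t : ZMod ((q + 1) * (q + 1 - 1)), (Bad B h t).card
        = ∑ t : ZMod ((q + 1) * (q + 1 - 1)), 2 * (Bad B h t).card := by rw [Finset.mul_sum]
      _ ≤ ∑ t : ZMod ((q + 1) * (q + 1 - 1)),
          (((At B h t ×ˢ At B h t).filter (fun q : ℕ × ℕ => q.1 + q.2 ∈ At B h t)).card +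
          ((At B h t).filter (fun a : ℕ => a + a ∈ At B h t)).card) :=
          Finset.sum_le_sum fun t _ => hTWO B h t
      _ ≤ _ := by
          rw [Finset.sum_add_distrib]
          exact Nat.add_le_add h1 h2
  have hqp : (1 : ℝ) ≤ ((q + 1 : ℕ) : ℝ) := by push_cast; linarith [(Nat.cast_nonneg q : (0:ℝ) ≤ q)]
  have hhr : (h : ℝ) * 2 = ((q : ℝ) + 1) * q := by
    have : h * 2 = (q + 1) * q := by omega
    exact_mod_cast this
  have hq0 : (0 : ℝ) ≤ q := Nat.cast_nonneg q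
  have hq2 : (2 : ℝ) ≤ q := by
    have : 2 ≤ q := by omega
    exact_mod_cast this
  have hN : ∀ z : ZMod ((q + 1) * (q + 1 - 1)), (N2 B z h : ℝ) ≤
      (h : ℝ) ^ 2 / (2 * ((q + 1 : ℕ) : ℝ) ^ 2) + 1 + 2 * η * ((q + 1 : ℕ) : ℝ) ^ 2 +
        η ^ 2 * ((q + 1 : ℕ) : ℝ) ^ 2 := by
    refine hPAI B ((q + 1 : ℕ) : ℝ) η hqp hη0.le h ?_ ?_
    · push_cast
      nlinarith
    · intro z l hl
      exact hP (q + 1) hp1 (by omega) B hB hBc z l (by omega)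
  have hN' : ∀ z : ZMod ((q + 1) * (q + 1 - 1)), (N2 B z h : ℝ) ≤
      (q : ℝ) ^ 2 / 8 + 1 + (2 * η + η ^ 2) * ((q : ℝ) + 1) ^ 2 := by
    intro z
    refine (hN z).trans (le_of_eq ?_)
    have e1 : (h : ℝ) = ((q : ℝ) + 1) * q / 2 := by linarith
    rw [e1]
    push_cast
    have : ((q : ℝ) + 1) ≠ 0 := by positivity
    field_simp
    ring
  have hsumN : (∑ b ∈ B, (N2 B (b - (h : ZMod ((q + 1) * (q + 1 - 1)))) h : ℝ)) ≤
      q * ((q : ℝ) ^ 2 / 8 + 1 + (2 * η + η ^ 2) * ((q : ℝ) + 1) ^ 2) := by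
    calc _ ≤ ∑ _b ∈ B, ((q : ℝ) ^ 2 / 8 + 1 + (2 * η + η ^ 2) * ((q : ℝ) + 1) ^ 2) :=
          Finset.sum_le_sum fun b _ => hN' _
      _ = _ := by rw [Finset.sum_const, nsmul_eq_mul, hBc']
  have hup' : 2 * (∑ t : ZMod ((q + 1) * (q + 1 - 1)), ((Bad B h t).card : ℝ)) ≤
      q * ((q : ℝ) ^ 2 / 8 + 1 + (2 * η + η ^ 2) * ((q : ℝ) + 1) ^ 2) + (q : ℝ) ^ 2 := by
    have h1 : ((2 * ∑ t : ZMod ((q + 1) * (q + 1 - 1)), (Bad B h t).card : ℕ) : ℝ) ≤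
      ((∑ b ∈ B, N2 B (b - (h : ZMod ((q + 1) * (q + 1 - 1)))) h + B.card ^ 2 : ℕ) : ℝ) := by
      exact_mod_cast hup
    push_cast at h1
    rw [hBc'] at h1
    linarith
  have hlow : ((q : ℝ) + 1) * q * ((1 / 16 + ε) * ((q : ℝ) + 1)) ≤
      ∑ t : ZMod ((q + 1) * (q + 1 - 1)), ((Bad B h t).card : ℝ) := by
    have h1 : ∑ _t : ZMod ((q + 1) * (q + 1 - 1)), ((1 / 16 + ε) * ((q : ℝ) + 1)) ≤
        ∑ t : ZMod ((q + 1) * (q + 1 - 1)), ((Bad B h t).card : ℝ) := by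
      refine Finset.sum_le_sum fun t _ => ?_
      have := hcon t
      rw [hx0] at this
      push_cast at this
      exact this.le
    rw [Finset.sum_const, Finset.card_univ, hcard, nsmul_eq_mul] at h1
    have e : (((q + 1) * (q + 1 - 1) : ℕ) : ℝ) = ((q : ℝ) + 1) * q := by
      rw [hMq]; push_cast; ring
    rw [e] at h1
    exact h1
  push_cast at hpε
  have h5 : 2 * (((q : ℝ) + 1) * q * ((1 / 16 + ε) * ((q : ℝ) + 1))) ≤
      q * ((q : ℝ) ^ 2 / 8 + 1 + (2 * η + η ^ 2) * ((q : ℝ) + 1) ^ 2) + (q : ℝ) ^ 2 := by linarith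
  have h6 : 2 * (((q : ℝ) + 1) * ((1 / 16 + ε) * ((q : ℝ) + 1))) ≤
      ((q : ℝ) ^ 2 / 8 + 1 + (2 * η + η ^ 2) * ((q : ℝ) + 1) ^ 2) + q := by
    have hqpos : (0 : ℝ) < q := by linarith
    have e1 : 2 * (((q : ℝ) + 1) * q * ((1 / 16 + ε) * ((q : ℝ) + 1))) =
      q * (2 * (((q : ℝ) + 1) * ((1 / 16 + ε) * ((q : ℝ) + 1)))) := by ring
    have e2 : q * ((q : ℝ) ^ 2 / 8 + 1 + (2 * η + η ^ 2) * ((q : ℝ) + 1) ^ 2) + (q : ℝ) ^ 2 =
      q * (((q : ℝ) ^ 2 / 8 + 1 + (2 * η + η ^ 2) * ((q : ℝ) + 1) ^ 2) + q) := by ring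
    rw [e1, e2] at h5
    exact le_of_mul_le_mul_left h5 hqpos
  have h7 : (2 * η + η ^ 2) * ((q : ℝ) + 1) ^ 2 ≤ ε * ((q : ℝ) + 1) ^ 2 := by
    apply mul_le_mul_of_nonneg_right _ (by positivity)
    nlinarith
  have h8 : ((q : ℝ) + 1) * 1 < ((q : ℝ) + 1) * (ε * ((q : ℝ) + 1)) :=
    mul_lt_mul_of_pos_left hpε (by positivity)
  nlinarith

end Pool.Agent.H77.TI
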