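import Pool.Agent.H84.TI.Stm

set_option autoImplicit false

open Finset

namespace Pool.Agent.H77.TI

open Pool.Agent.H84.TI

/-- positive part as a multiset -/
noncomputable def Pm (A : Finset ℕ) (e : ℕ → ℤ) : Multiset ℕ := ∑ a ∈ A, (e a).toNat • ({a} : Multiset ℕ)

lemma Pm_card (A : Finset ℕ) (e : ℕ → ℤ) : (Pm A e).card = ∑ a ∈ A, (e a).toNat := by
  unfold Pm
  rw [Multiset.card_sum]
  simp

lemma Pm_sum (A : Finset ℕ) (e : ℕ → ℤ) : (Pm A e).sum = ∑ a ∈ A, (e a).toNat * a := by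
  unfold Pm
  induction A using Finset.induction_on with
  | empty => simp
  | insert x s hx ih =>
    rw [Finset.sum_insert hx, Finset.sum_insert hx, Multiset.sum_add, ih, Multiset.sum_nsmul,
      Multiset.sum_singleton, smul_eq_mul]

lemma Pm_mem {A : Finset ℕ} {e : ℕ → ℤ} {x : ℕ} (h : x ∈ Pm A e) : x ∈ A ∧ 0 < e x := by
  unfold Pm at h
  rw [Multiset.mem_sum] at h
  obtain ⟨i, hi, hx⟩ := h
  rw [Multiset.mem_nsmul] at hx
  obtain ⟨h1, h2⟩ := hx
  rw [Multiset.mem_singleton] at h2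
  subst h2
  exact ⟨hi, by omega⟩

lemma card_add (A : Finset ℕ) (e : ℕ → ℤ) :
    (((Pm A e).card + (Pm A (fun a => - e a)).card : ℕ) : ℤ) = ∑ a ∈ A, |e a| := by
  rw [Pm_card, Pm_card, ← Finset.sum_add_distrib]
  push_cast
  refine Finset.sum_congr rfl fun a _ => ?_
  rcases le_total 0 (e a) with h | h
  · rw [abs_of_nonneg h]; omega
  · rw [abs_of_nonpos h]; omega

lemma sum_sub (A : Finset ℕ) (e : ℕ → ℤ) :
    (((Pm A e).sum : ℕ) : ℤ) - (((Pm A (fun a => - e a)).sum : ℕ) : ℤ) = ∑ a ∈ A, e a * (a : ℤ) := by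
  rw [Pm_sum, Pm_sum]
  push_cast
  rw [← Finset.sum_sub_distrib]
  refine Finset.sum_congr rfl fun a _ => ?_
  rcases le_total 0 (e a) with h | h
  · have h1 : ((e a).toNat : ℤ) = e a := by omega
    have h2 : ((- e a).toNat : ℤ) = 0 := by omega
    rw [h1, h2]; ring
  · have h1 : ((e a).toNat : ℤ) = 0 := by omega
    have h2 : ((- e a).toNat : ℤ) = - e a := by omega
    rw [h1, h2]; ring

lemma sum_lt {n : ℕ} {A : Finset ℕ} (hn : 0 < n) (hlt : ∀ a ∈ A, 4 * a < n) {P : Multiset ℕ}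
    (hP : ∀ x ∈ P, x ∈ A) (hc : P.card ≤ 4) : P.sum < n := by
  have h1 : ∀ Q : Multiset ℕ, (∀ x ∈ Q, x ∈ A) → 4 * Q.sum + Q.card ≤ Q.card * n := by
    intro Q
    induction Q using Multiset.induction_on with
    | empty => intro _; simp
    | cons a s ih =>
      intro h
      have h2 := ih (fun x hx => h x (Multiset.mem_cons_of_mem hx))
      have h3 := hlt a (h a (Multiset.mem_cons_self a s))
      rw [Multiset.sum_cons, Multiset.card_cons]
      nlinarith
  have h2 := h1 P hP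
  by_cases h0 : P.card = 0
  · rw [Multiset.card_eq_zero] at h0
    rw [h0]; simpa using hn
  · have : P.card * n ≤ 4 * n := Nat.mul_le_mul_right _ hc
    omega

lemma core {A : Finset ℕ} (hpos : ∀ a ∈ A, 0 < a)
    (h21 : ∀ a ∈ A, ∀ b ∈ A, ∀ c ∈ A, a + b ≠ c)
    (h31 : ∀ a ∈ A, ∀ b ∈ A, ∀ c ∈ A, ∀ d ∈ A, a + b + c ≠ d)
    (h22 : ∀ a ∈ A, ∀ b ∈ A, ∀ c ∈ A, ∀ d ∈ A, a + b = c + d → (a = c ∧ b = d) ∨ (a = d ∧ b = c))
    {P N : Multiset ℕ} (hP : ∀ x ∈ P, x ∈ A) (hN : ∀ x ∈ N, x ∈ A) (hd : ∀ x ∈ P, x ∉ N)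
    (h1 : 1 ≤ P.card + N.card) (h4 : P.card + N.card ≤ 4) (hle : N.card ≤ P.card)
    (hs : P.sum = N.sum) : False := by
  have hPp : P.card = 0 ∨ P.card = 1 ∨ P.card = 2 ∨ P.card = 3 ∨ P.card = 4 := by omega
  have hN0 : N.card = 0 → False := by
    intro h0
    rw [Multiset.card_eq_zero] at h0
    subst h0
    rw [Multiset.sum_zero] at hs
    obtain ⟨x, hx⟩ : ∃ x, x ∈ P := by
      apply Multiset.card_pos_iff_exists_mem.1
      have h1' : 1 ≤ P.card := by simpa using h1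
      omega
    have h2 := Multiset.le_sum_of_mem hx
    have h3 := hpos x (hP x hx)
    omega
  have hNn : N.card = 1 ∨ N.card = 2 := by
    rcases Nat.eq_zero_or_pos N.card with h | h
    · exact (hN0 h).elim
    · omega
  rcases hNn with h | h
  · obtain ⟨d, rfl⟩ := Multiset.card_eq_one.1 h
    have hdA := hN d (Multiset.mem_singleton_self d)
    rw [Multiset.sum_singleton] at hs
    have : P.card = 1 ∨ P.card = 2 ∨ P.card = 3 := by omega
    rcases this with hp | hp | hp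
    · obtain ⟨a, rfl⟩ := Multiset.card_eq_one.1 hp
      rw [Multiset.sum_singleton] at hs
      subst hs
      exact hd a (Multiset.mem_singleton_self a) (Multiset.mem_singleton_self a)
    · obtain ⟨a, b, rfl⟩ := Multiset.card_eq_two.1 hp
      refine h21 a (hP a (by simp)) b (hP b (by simp)) d hdA ?_
      simpa using hs
    · obtain ⟨a, b, c, rfl⟩ := Multiset.card_eq_three.1 hp
      refine h31 a (hP a (by simp)) b (hP b (by simp)) c (hP c (by simp)) d hdA ?_
      have : a + (b + c) = d := by simpa using hs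
      omega
  · obtain ⟨c, d, rfl⟩ := Multiset.card_eq_two.1 h
    have hp : P.card = 2 := by omega
    obtain ⟨a, b, rfl⟩ := Multiset.card_eq_two.1 hp
    have hs' : a + b = c + d := by simpa using hs
    rcases h22 a (hP a (by simp)) b (hP b (by simp)) c (hN c (by simp)) d (hN d (by simp)) hs' with
      ⟨h5, _⟩ | ⟨h5, _⟩
    · exact hd a (by simp) (by simp [h5])
    · exact hd a (by simp) (by simp [h5])

theorem ind : S_IND := by
  intro n A hpos hlt h21 h31 h22 c h1 h4 hsum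
  have hinj : Set.InjOn (Nat.cast : ℕ → ZMod n) A := by
    intro a ha b hb hab
    have h := (ZMod.natCast_eq_natCast_iff a b n).1 hab
    have h2 := hlt a ha
    have h3 := hlt b hb
    exact Nat.ModEq.eq_of_lt_of_lt h (by omega) (by omega)
  rw [Finset.sum_image hinj] at h1 h4 hsum
  obtain ⟨e, he⟩ : ∃ e : ℕ → ℤ, e = fun a : ℕ => c (a : ZMod n) := ⟨_, rfl⟩
  have h1' : 1 ≤ ∑ a ∈ A, |e a| := by rw [he]; exact h1
  have h4' : ∑ a ∈ A, |e a| ≤ 4 := by rw [he]; exact_mod_cast h4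
  have hV : ((∑ a ∈ A, e a * (a : ℤ) : ℤ) : ZMod n) = 0 := by
    push_cast
    rw [he]
    simpa [zsmul_eq_mul] using hsum
  have hdvd : (n : ℤ) ∣ ∑ a ∈ A, e a * (a : ℤ) := (ZMod.intCast_zmod_eq_zero_iff_dvd _ _).1 hV
  have hcard := card_add A e
  have hss := sum_sub A e
  have hn : 0 < n := by
    rcases A.eq_empty_or_nonempty with h | ⟨a, ha⟩
    · rw [h] at h1'; simp at h1'
    · have := hlt a ha; omega
  have hPA : ∀ x ∈ Pm A e, x ∈ A := fun x hx => (Pm_mem hx).1
  have hNA : ∀ x ∈ Pm A (fun a => - e a), x ∈ A := fun x hx => (Pm_mem hx).1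
  have hc1 : 1 ≤ (Pm A e).card + (Pm A (fun a => - e a)).card := by
    have : (1 : ℤ) ≤ (((Pm A e).card + (Pm A (fun a => - e a)).card : ℕ) : ℤ) := by rw [hcard]; exact h1'
    exact_mod_cast this
  have hc4 : (Pm A e).card + (Pm A (fun a => - e a)).card ≤ 4 := by
    have : (((Pm A e).card + (Pm A (fun a => - e a)).card : ℕ) : ℤ) ≤ 4 := by rw [hcard]; exact h4'
    exact_mod_cast this
  have hl1 := sum_lt hn hlt hPA (by omega)
  have hl2 := sum_lt hn hlt hNA (by omega)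
  have hV0 : ∑ a ∈ A, e a * (a : ℤ) = 0 := by
    apply Int.eq_zero_of_abs_lt_dvd hdvd
    rw [← hss, abs_lt]
    constructor <;> omega
  rw [hV0] at hss
  have heq : (Pm A e).sum = (Pm A (fun a => - e a)).sum := by omega
  have hdis : ∀ x ∈ Pm A e, x ∉ Pm A (fun a => - e a) := by
    intro x hx hx2
    have h5 := (Pm_mem hx).2
    have h6 := (Pm_mem hx2).2
    omega
  rcases le_total (Pm A (fun a => - e a)).card (Pm A e).card with h | h
  · exact core hpos h21 h31 h22 hPA hNA hdis hc1 hc4 h heq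
  · exact core hpos h21 h31 h22 hNA hPA (fun x hx hx2 => hdis x hx2 hx) (by omega) (by omega) h heq.symm

end Pool.Agent.H77.TI
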